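import Mathlib
import Pool.Agent.Helper436.SM.RF1
import Pool.Agent.Helper436.SM.RF2
import Pool.Agent.Helper436.SN.RF

set_option autoImplicit false

/-!
# The group `GG` is finitely generated, torsion-free and residually finite
-/

namespace Pool.Agent.Y241.OA

open Pool.Agent.Helper436.SM Pool.Agent.Helper436.SN

theorem mem_of (H : Subgroup GG) (j : KK →* GG)
    (hj : ∀ (n : Multiplicative ℤ) (x : KK), j (actK n x) = gt n * j x * (gt n)⁻¹)
    (ht : ∀ n, gt n ∈ H) (h0 : j y0 ∈ H) (ha : j ya ∈ H) (hb : j yb ∈ H) (x : KK) : j x ∈ H := by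
  induction x using FreeGroup.induction_on with
  | C1 => rw [map_one]; exact H.one_mem
  | of i =>
    rcases i with k | b
    · have h1 : actK (Multiplicative.ofAdd k) y0 = FreeGroup.of (Sum.inl k) := by
        unfold y0
        rw [actK_of, toAdd_ofAdd, shE_inl, zero_add]
      rw [← h1, hj]
      exact H.mul_mem (H.mul_mem (ht _) h0) (H.inv_mem (ht _))
    · cases b
      · exact hb
      · exact ha
  | inv_of i ih => rw [map_inv]; exact H.inv_mem ih
  | mul a b ha hb => rw [map_mul]; exact H.mul_mem ha hb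

/-- The two copies of `KK`. -/
def j1 : KK →* GG := SemidirectProduct.inl.comp (MonoidHom.inl KK KK)

def j2 : KK →* GG := SemidirectProduct.inl.comp (MonoidHom.inr KK KK)

theorem j1_conj (n : Multiplicative ℤ) (x : KK) : j1 (actK n x) = gt n * j1 x * (gt n)⁻¹ := by
  have h1 : actKK n (x, 1) = (actK n x, 1) := by
    rw [actKK_apply, map_one]
  show SemidirectProduct.inl (actK n x, 1) = SemidirectProduct.inr n *
    SemidirectProduct.inl (x, 1) * (SemidirectProduct.inr n)⁻¹
  rw [← h1, SemidirectProduct.inl_aut, map_inv]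

theorem j2_conj (n : Multiplicative ℤ) (x : KK) : j2 (actK n x) = gt n * j2 x * (gt n)⁻¹ := by
  have h1 : actKK n (1, x) = (1, actK n x) := by
    rw [actKK_apply, map_one]
  show SemidirectProduct.inl (1, actK n x) = SemidirectProduct.inr n *
    SemidirectProduct.inl (1, x) * (SemidirectProduct.inr n)⁻¹
  rw [← h1, SemidirectProduct.inl_aut, map_inv]

theorem fg_GG : Group.FG GG := by
  classical
  let S : Finset GG := {j1 y0, j1 ya, j1 yb, j2 y0, j2 ya, j2 yb, gt (Multiplicative.ofAdd 1)}
  have hS : ∀ x ∈ S, x ∈ Subgroup.closure (S : Set GG) := fun x hx => Subgroup.subset_closure hx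
  have ht : ∀ n, gt n ∈ Subgroup.closure (S : Set GG) := by
    intro n
    have h1 : gt n = (gt (Multiplicative.ofAdd 1)) ^ (Multiplicative.toAdd n) := by
      show (SemidirectProduct.inr n : GG) =
        (SemidirectProduct.inr (Multiplicative.ofAdd 1)) ^ (Multiplicative.toAdd n)
      rw [← map_zpow]
      congr 1
      rw [← ofAdd_zsmul, smul_eq_mul, mul_one, ofAdd_toAdd]
    rw [h1]
    exact Subgroup.zpow_mem _ (hS _ (by simp [S])) _
  rw [Group.fg_iff]
  refine ⟨(S : Set GG), ?_, S.finite_toSet⟩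
  rw [eq_top_iff]
  intro g _
  have h1 : g = j1 g.left.1 * j2 g.left.2 * gt g.right := by
    have h2 : j1 g.left.1 * j2 g.left.2 = SemidirectProduct.inl g.left := by
      show (SemidirectProduct.inl (g.left.1, 1) : GG) * SemidirectProduct.inl (1, g.left.2) = _
      rw [← map_mul, Prod.mk_mul_mk, mul_one, one_mul]
    rw [h2]
    exact (SemidirectProduct.inl_left_mul_inr_right g).symm
  rw [h1]
  exact Subgroup.mul_mem _ (Subgroup.mul_mem _
    (mem_of _ j1 j1_conj ht (hS _ (by simp [S])) (hS _ (by simp [S])) (hS _ (by simp [S])) _)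
    (mem_of _ j2 j2_conj ht (hS _ (by simp [S])) (hS _ (by simp [S])) (hS _ (by simp [S])) _))
    (ht _)

theorem tf_free (x : KK) (n : ℕ) (hn : 0 < n) (h : x ^ n = 1) : x = 1 := by
  have h1 := IsMulTorsionFree.pow_left_injective (M := KK) hn.ne'
  apply h1
  show x ^ n = 1 ^ n
  rw [h, one_pow]

theorem tf_GG (g : GG) (n : ℕ) (hn : 0 < n) (h : g ^ n = 1) : g = 1 := by
  have hr : g.right = 1 := by
    have h1 : g.right ^ n = 1 := by
      have h2 := congrArg SemidirectProduct.rightHom h
      rw [map_pow, map_one, SemidirectProduct.rightHom_eq_right] at h2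
      exact h2
    have h2 : n • Multiplicative.toAdd g.right = 0 := by
      rw [← toAdd_pow, h1, toAdd_one]
    rcases smul_eq_zero.1 h2 with h3 | h3
    · omega
    · exact Multiplicative.toAdd.injective h3
  have hg : g = SemidirectProduct.inl g.left := SemidirectProduct.ext rfl hr
  have h1 : g.left ^ n = 1 := by
    rw [hg, ← map_pow, ← map_one (SemidirectProduct.inl (φ := actKK))] at h
    exact SemidirectProduct.inl_injective h
  have h2 : g.left = 1 :=
    Prod.ext (tf_free _ n hn (congrArg Prod.fst h1)) (tf_free _ n hn (congrArg Prod.snd h1))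
  rw [hg, h2, map_one]

theorem tf_prod (g : GG × GG) (hg : g ≠ 1) (n : ℕ) (hn : 0 < n) : g ^ n ≠ 1 := by
  intro h
  exact hg (Prod.ext (tf_GG _ n hn (congrArg Prod.fst h)) (tf_GG _ n hn (congrArg Prod.snd h)))

theorem rf_prod' (g : GG × GG) (hg : g ≠ 1) :
    ∃ (P : Type) (_ : Group P) (f : GG × GG →* P), Finite P ∧ f g ≠ 1 := by
  have h1 : ∀ g : GG, g ≠ 1 →
      ∃ (Ω : Type) (_ : Fintype Ω) (σ : GG →* Equiv.Perm Ω), σ g ≠ 1 := fun g hg =>
    gg_rf (fun w hw => free_rf w hw) g hg
  obtain ⟨Ω, _, σ, hσ⟩ := rf_prod h1 h1 g hg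
  exact ⟨Equiv.Perm Ω, inferInstance, σ, inferInstance, hσ⟩

theorem fg_prod : Group.FG (GG × GG) := by
  have := fg_GG
  infer_instance

end Pool.Agent.Y241.OA
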